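import Pool.Agent.Lib.DT.R.Spec

/-!
# Theorem DT (`p = 3`), module R0: the cycle of the numbers `Al`, `ρ`, `δ`
-/

set_option autoImplicit false

open scoped Pointwise

noncomputable section

namespace Pool.Agent.DT

open Pool.Agent.MuZ Pool.Agent.FW NumberField IsDedekindDomain
open Pool.Agent.DI (io ofC io_inj exists_io io_ofC ofC_io VP MP UP TP ex)

/-- The cycle. -/
theorem sR0 (hO4 : S_O4) (hO5 : S_O5) (hB1 : S_B1) (hB5 : S_B5) (hB6 : S_B6) (hB7 : S_B7) :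
    S_R0 := by
  intro k t _
  obtain ⟨-, -, -, -, -, -, -, -, -, hne, -, -⟩ := hO4 k t
  obtain ⟨h, α, hh, hα, hp⟩ := hO5 k t (ppb k t) hne
  refine ⟨h, α, hh, hα, hp, ?_⟩
  intro b hb
  have hne' : ∀ i : ℕ, ppb k t ^ i * b ≠ ⊥ := by
    intro i
    rw [← Ideal.zero_eq_bot] at hne hb ⊢
    exact mul_ne_zero (pow_ne_zero i hne) hb
  have hsucc : ∀ i : ℕ, ppb k t ^ (i + 1) * b = ppb k t * (ppb k t ^ i * b) := by
    intro i
    rw [pow_succ', mul_assoc]
  refine ⟨?_, ?_, ?_⟩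
  · intro i
    have e : ppb k t ^ (i + h) * b = sp α * (ppb k t ^ i * b) := by
      rw [pow_add, hp, mul_comm (ppb k t ^ i), mul_assoc]
    obtain ⟨-, h1, h2, h3, -, -⟩ := (hB7 k t _ (hne' i)).1 α hα
    rw [e]
    exact ⟨h1, h2, h3⟩
  · intro i
    obtain ⟨h1, h2, h3, h4, -, -⟩ := hB5 k t _ (hne' i)
    obtain ⟨-, -, -, -, -, h5, -, -⟩ := hB6 k t _ (hne' i)
    obtain ⟨-, -, -, -, h6, -⟩ := hB1 k t _ (hne' i)
    rw [hsucc i]
    refine ⟨h1, ?_, h2, h3, h4, h5⟩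
    intro h0
    rw [h0] at h5
    exact h6 (by rw [← h5]; ring)
  · have hs : ∀ n : ℕ, r2 (ppb k t ^ n * b) =
        (∏ i ∈ Finset.range n, rhC (ppb k t ^ i * b)) ^ 2 * r2 b := by
      intro n
      induction n with
      | zero =>
        rw [Finset.prod_range_zero, one_pow, one_mul, pow_zero, one_mul]
      | succ n ih =>
        obtain ⟨-, -, -, -, h5, -⟩ := hB5 k t _ (hne' n)
        rw [hsucc n, h5, ih, Finset.prod_range_succ]
        ring
    have hb0 : r2 b ≠ 0 := by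
      obtain ⟨-, -, h1, -⟩ := hB1 k t b hb
      exact h1
    have h2 := hs h
    obtain ⟨-, -, -, -, -, h3⟩ := (hB7 k t b hb).1 α hα
    rw [hp, h3] at h2
    exact (mul_right_cancel₀ hb0 h2).symm

end Pool.Agent.DT
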