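import Pool.Agent.Lib.DT.R.Spec

/-!
# Theorem DT, part R, module R0O: the cycle in `Om`
-/

set_option autoImplicit false

open scoped Pointwise

noncomputable section

namespace Pool.Agent.DT

open Pool.Agent.MuZ Pool.Agent.FW NumberField IsDedekindDomain
open Pool.Agent.DI (io ofC io_inj exists_io io_ofC ofC_io VP MP UP TP ex)

/-- The cycle in `Om`. -/
theorem sR0O (h0 : S_R0) (h1 : S_R1) : S_R0O := by
  intro k t _
  obtain ⟨h, α, hh, hα, hp, H⟩ := h0 k t
  refine ⟨h, α, hh, hα, hp, ?_⟩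
  intro b hb
  have hpp : ppb k t ≠ ⊥ := by
    intro h2
    have h3 : (3 : OO k t) ∈ ppb k t := Ideal.subset_span (by simp)
    rw [h2, Ideal.mem_bot] at h3
    have h4 := congrArg QuadraticAlgebra.re h3
    have h5 := re_nat (k := k) (t := t) 3
    norm_num at h4 h5
    rw [h5] at h4
    norm_num at h4
  have hne : ∀ i : ℕ, ppb k t ^ i * b ≠ ⊥ := fun i => mul_ne_zero (pow_ne_zero i hpp) hb
  have hA : ∀ i : ℕ, io (aO (ppb k t ^ i * b)) = AC (ppb k t ^ i * b) :=
    fun i => (h1 k t _ (hne i)).1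
  have hR : ∀ i : ℕ, io (rhO (ppb k t ^ i * b)) = rhC (ppb k t ^ i * b) :=
    fun i => (h1 k t _ (hne i)).2.1
  have hD : ∀ i : ℕ, io (dlO (ppb k t ^ i * b)) = dlC (ppb k t ^ i * b) :=
    fun i => (h1 k t _ (hne i)).2.2.1
  obtain ⟨H1, H2, H3⟩ := H b hb
  refine ⟨?_, ?_, ?_⟩
  · intro i
    obtain ⟨h5, h6, h7⟩ := H1 i
    refine ⟨?_, ?_, ?_⟩
    · apply io_inj
      rw [hA, hA, h5]
    · apply io_inj
      rw [hR, hR, h6]
    · apply io_inj
      rw [hD, hD, h7]
  · intro i
    obtain ⟨h5, h6, h7, h8, h9, h10⟩ := H2 i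
    refine ⟨?_, ?_, ?_, ?_, ?_, ?_⟩
    · intro hz
      apply h5
      rw [← hR, hz, map_zero]
    · intro hz
      apply h6
      rw [← hD, hz, map_zero]
    · apply io_inj
      rw [map_pow, map_add, map_add, map_mul, map_pow, map_ofNat, map_ofNat, hR, hA]
      exact h7
    · apply io_inj
      rw [map_mul, map_add, map_ofNat, hR, hA, hA]
      exact h8
    · apply io_inj
      rw [map_mul, map_sub, map_ofNat, hR, hA, hD]
      exact h9
    · apply io_inj
      rw [map_pow, map_sub, map_pow, map_ofNat, hA, hD]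
      exact h10
  · apply io_inj
    rw [map_pow, map_prod, map_pow, io_toO, ← H3]
    congr 1
    exact Finset.prod_congr rfl fun i _ => hR i

end Pool.Agent.DT
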