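import Pool.Agent.Lib.DT.R.Spec
import Pool.Agent.Lib.DK.R.RA

/-!
# Theorem DT, module R1: the numbers `AC b`, `rhC b`, `dlC b` are algebraic
-/

set_option autoImplicit false

open scoped Pointwise

noncomputable section

namespace Pool.Agent.DT

open Pool.Agent.MuZ Pool.Agent.FW NumberField IsDedekindDomain
open Pool.Agent.DI (io ofC io_inj exists_io io_ofC ofC_io VP MP UP TP ex)

/-- `AC b` is algebraic. -/
private theorem R1_alg (hRB : S_RB) (hR0 : S_R0) (k t : ℕ) [SqT k t] (b : Ideal (OO k t))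
    (hb : b ≠ ⊥) : IsAlgebraic ℚ (AC b) := by
  by_contra hna
  obtain ⟨V, hV, hx⟩ := Pool.Agent.DK.sRA (AC b) hna
  obtain ⟨h, α, hh, _, _, H⟩ := hR0 k t
  obtain ⟨hper, hrel, _⟩ := H b hb
  have hle := (hRB ℂ V h (fun i => AC (ppb k t ^ i * b)) (fun i => rhC (ppb k t ^ i * b)) hh
    (fun i => (hper i).1) (fun i => (hrel i).2.2.1) (fun i => (hrel i).2.2.2.1) 0).1
  simp only [pow_zero, one_mul] at hle
  rw [V.valuation_le_one_iff] at hle
  exact hx hle

/-- The statement `S_R1`, from the statements `S_RB`, `S_R0`. -/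
theorem sR1 (hRB : S_RB) (hR0 : S_R0) : S_R1 := by
  intro k t _ b hb
  have ha : ∀ c : Ideal (OO k t), c ≠ ⊥ → IsAlgebraic ℚ (AC c) := fun c hc => R1_alg hRB hR0 k t c hc
  obtain ⟨h, α, hh, _, _, H⟩ := hR0 k t
  have hrel : ∀ c : Ideal (OO k t), c ≠ ⊥ →
      rhC c ^ 3 = AC c ^ 2 + 3 * AC c + 9 ∧ AC (ppb k t * c) * rhC c = AC c + 6 ∧
      dlC (ppb k t * c) * rhC c = AC c - 3 ∧ dlC c ^ 3 = AC c ^ 3 - 27 := by
    intro c hc
    have h0 := (H c hc).2.1 0
    simp only [pow_zero, one_mul, zero_add, pow_one] at h0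
    exact ⟨h0.2.2.1, h0.2.2.2.1, h0.2.2.2.2.1, h0.2.2.2.2.2⟩
  have hn : ∀ q : ℚ, IsAlgebraic ℚ ((q : ℚ) : ℂ) := fun q => by
    simpa using isAlgebraic_algebraMap (R := ℚ) (A := ℂ) q
  have hr : ∀ c : Ideal (OO k t), c ≠ ⊥ → IsAlgebraic ℚ (rhC c) := by
    intro c hc
    refine IsAlgebraic.of_pow (n := 3) (by norm_num) ?_
    rw [(hrel c hc).1]
    have h3 : IsAlgebraic ℚ (3 : ℂ) := by simpa using hn 3
    have h9 : IsAlgebraic ℚ (9 : ℂ) := by simpa using hn 9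
    exact (((ha c hc).pow 2).add (h3.mul (ha c hc))).add h9
  have hd : ∀ c : Ideal (OO k t), c ≠ ⊥ → IsAlgebraic ℚ (dlC c) := by
    intro c hc
    refine IsAlgebraic.of_pow (n := 3) (by norm_num) ?_
    rw [(hrel c hc).2.2.2]
    have h27 : IsAlgebraic ℚ (27 : ℂ) := by simpa using hn 27
    exact ((ha c hc).pow 3).sub h27
  have ea : ∀ c : Ideal (OO k t), c ≠ ⊥ → io (aO c) = AC c := fun c hc => io_ofC _ (ha c hc)
  have er : ∀ c : Ideal (OO k t), c ≠ ⊥ → io (rhO c) = rhC c := fun c hc => io_ofC _ (hr c hc)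
  have ed : ∀ c : Ideal (OO k t), c ≠ ⊥ → io (dlO c) = dlC c := fun c hc => io_ofC _ (hd c hc)
  have hp : ppb k t ≠ ⊥ := by
    intro h0
    have h3 : (3 : OO k t) ∈ ppb k t := Ideal.subset_span (by simp)
    rw [h0, Ideal.mem_bot] at h3
    have e := toC_three (k := k) (t := t)
    rw [h3, toC_zero] at e
    norm_num at e
  have hpb : ppb k t * b ≠ ⊥ := mul_ne_zero hp hb
  have h0 := hrel b hb
  refine ⟨ea b hb, er b hb, ed b hb, ?_, ?_, ?_, ?_⟩
  · apply io_inj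
    rw [map_add, map_add, map_mul, map_pow, map_pow, map_ofNat, map_ofNat, ea b hb, er b hb]
    exact h0.1
  · apply io_inj
    rw [map_add, map_mul, map_ofNat, ea b hb, er b hb, ea _ hpb]
    exact h0.2.1
  · apply io_inj
    rw [map_sub, map_mul, map_ofNat, ea b hb, er b hb, ed _ hpb]
    exact h0.2.2.1
  · apply io_inj
    rw [map_sub, map_pow, map_pow, map_ofNat, ea b hb, ed b hb]
    exact h0.2.2.2

end Pool.Agent.DT
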