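import Pool.Agent.Lib.DT.R.Spec
import Pool.Agent.Lib.DI.Val
import Pool.Agent.Lib.DK.R.RV

/-!
# Theorem DT, module R2: integrality and units
-/

set_option autoImplicit false

open scoped Pointwise

noncomputable section

namespace Pool.Agent.DT

open Pool.Agent.MuZ Pool.Agent.FW NumberField IsDedekindDomain
open Pool.Agent.DI (io ofC io_inj exists_io io_ofC ofC_io VP MP UP TP ex)

variable {k t : ℕ}

private theorem R2_three [SqT k t] : toO (3 : OO k t) = 3 := by
  have h := toO_nat (k := k) (t := t) 3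
  push_cast at h
  exact h

private theorem R2_al [SqT k t] {Q : Ideal ZZ} (hQ : Npr Q) {h : ℕ} {al : OO k t}
    (hal : ppb k t ^ h = sp al) (hPb : ¬ AbPb k t Q) : UP Q (toO al) := by
  haveI : Q.IsPrime := hQ.1
  refine ⟨toO_VP al, fun h1 => hPb ?_⟩
  have key : ∀ x ∈ ppb k t, MP Q (toO x) := by
    intro x hx
    have hmem : x ^ h ∈ ppb k t ^ h := Ideal.pow_mem_pow hx h
    rw [hal] at hmem
    obtain ⟨c, hc⟩ := Ideal.mem_span_singleton'.1 hmem
    have h3 : MP Q (toO (x ^ h)) := by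
      rw [← hc, toO_mul]
      exact MP.mul_left (toO_VP c) h1
    rw [toO_pow] at h3
    exact MP.of_pow h3
  have k3 := key 3 (Ideal.subset_span (by simp))
  have kw := key (1 - wI k t) (Ideal.subset_span (by simp))
  rw [R2_three] at k3
  rw [toO_sub, toO_one, toO_wI] at kw
  exact ⟨hQ, k3, kw⟩

theorem sR2 (hO4 : S_O4) (hRB : S_RB) (hRC : S_RC) (hR0O : S_R0O) (hR1 : S_R1) (hB6 : S_B6)
    (hB7 : S_B7) : S_R2 := by
  intro k t _ b hb Q hQ
  haveI : Q.IsPrime := hQ.1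
  obtain ⟨V, hV1, hV2, hV3⟩ := DK.sRV Q hQ
  obtain ⟨h, al, hh, hal, halI, hcyc⟩ := hR0O k t
  have e0 : ∀ c : Ideal (OO k t), ppb k t ^ 0 * c = c := fun c => by rw [pow_zero, one_mul]
  have hint : ∀ c : Ideal (OO k t), c ≠ ⊥ → VP Q (aO c) ∧ VP Q (rhO c) := by
    intro c hc
    obtain ⟨c1, c2, -⟩ := hcyc c hc
    have g := hRB Om V h (fun i => aO (ppb k t ^ i * c)) (fun i => rhO (ppb k t ^ i * c)) hh
      (fun i => (c1 i).1) (fun i => (c2 i).2.2.1) (fun i => (c2 i).2.2.2.1) 0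
    simp only [e0] at g
    exact ⟨(hV1 _).1 g.1, (hV1 _).1 g.2⟩
  have hun : ¬ AbPb k t Q → ∀ c : Ideal (OO k t), c ≠ ⊥ → UP Q (rhO c) ∧ UP Q (dlO c) := by
    intro hPb c hc
    obtain ⟨c1, c2, c3⟩ := hcyc c hc
    have ual := R2_al hQ halI hPb
    have g := hRC Om V h (toO al) (fun i => aO (ppb k t ^ i * c)) (fun i => rhO (ppb k t ^ i * c))
      (fun i => dlO (ppb k t ^ i * c)) hh c1 (fun i => (c2 i).2.1) (fun i => (c2 i).2.2.1)
      (fun i => (c2 i).2.2.2.1) (fun i => (c2 i).2.2.2.2.1) (fun i => (c2 i).2.2.2.2.2) c3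
      ((hV3 _).2 ual) 0
    simp only [e0] at g
    exact ⟨(hV3 _).1 g.1, (hV3 _).1 g.2⟩
  obtain ⟨va, vr⟩ := hint b hb
  obtain ⟨-, -, -, r1, -, -, r2⟩ := hR1 k t b hb
  have v3 : VP Q (3 : Om) := by simpa using VP.nat (P := Q) 3
  have v9 : VP Q (9 : Om) := by simpa using VP.nat (P := Q) 9
  have v27 : VP Q (27 : Om) := by simpa using VP.nat (P := Q) 27
  have v2 : VP Q (2 : Om) := by simpa using VP.nat (P := Q) 2
  refine ⟨va, vr, ?_, fun hPb => hun hPb b hb, ?_⟩
  · apply VP.of_pow (n := 3) (by norm_num)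
    rw [r2]
    exact (va.pow 3).sub v27
  · rintro ⟨-, m3, mw⟩
    have hPb : ¬ AbPb k t Q := by
      rintro ⟨-, -, h5⟩
      have h6 := h5.add mw
      rw [sub_add_cancel] at h6
      exact MP.one_not h6
    obtain ⟨-, -, -, -, -, -, -, -, hpp, -⟩ := hO4 k t
    have hppb : pp k t * b ≠ ⊥ := fun h => (Ideal.mul_eq_bot.1 h).elim hpp hb
    have ur := (hun hPb b hb).1
    have ur' := (hun hPb _ hppb).1
    have ua : UP Q (aO b) := by
      refine ⟨va, fun hm => ?_⟩
      refine (ur.pow 3).2 ?_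
      rw [r1]
      have h9 : MP Q (9 : Om) := by
        have := MP.mul_right m3 v3
        norm_num at this
        exact this
      have h1 : MP Q (aO b ^ 2) := by
        rw [pow_two]
        exact MP.mul_right hm va
      exact (h1.add (MP.mul_left v3 hm)).add h9
    have hrel : aO b * rhO (pp k t * b) = aO (pp k t * b) + 6 := by
      apply io_inj
      rw [map_mul, map_add, map_ofNat, (hR1 k t b hb).1, (hR1 k t _ hppb).1, (hR1 k t _ hppb).2.1]
      exact (hB6 k t b hb).2.2.1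
    have hrel3 := (hR1 k t _ hppb).2.2.2.1
    have hr0 : rhO (pp k t * b) ≠ 0 := ur'.ne_zero
    have vi : VP Q (rhO (pp k t * b))⁻¹ := ur'.inv.1
    have ey : rhO (pp k t * b) - aO b ^ 2 =
        3 * ((9 - 3 * (aO b * rhO (pp k t * b))) * (rhO (pp k t * b))⁻¹ ^ 2) := by
      have ea : aO (pp k t * b) = aO b * rhO (pp k t * b) - 6 := by linear_combination -hrel
      rw [ea] at hrel3
      generalize rhO (pp k t * b) = ρ at hrel3 hr0 ⊢
      generalize aO b = a at hrel3 ⊢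
      field_simp
      linear_combination hrel3
    have vy : VP Q ((9 - 3 * (aO b * rhO (pp k t * b))) * (rhO (pp k t * b))⁻¹ ^ 2) :=
      (v9.sub (v3.mul (va.mul ur'.1))).mul (vi.pow 2)
    refine ⟨ua, ⟨aO b * ((9 - 3 * (aO b * rhO (pp k t * b))) * (rhO (pp k t * b))⁻¹ ^ 2) - 2,
      (va.mul vy).sub v2, ?_⟩, ⟨_, vy, ey⟩⟩
    linear_combination -hrel + aO b * ey

end Pool.Agent.DT
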