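import Pool.Agent.Lib.DT.R.Spec
import Pool.Agent.Lib.DI.Val

/-!
# Theorem DT, part R, module `R3`: injectivity of `aO` modulo the primes above `𝔭`
-/

set_option autoImplicit false

open scoped Pointwise nonZeroDivisors

noncomputable section

namespace Pool.Agent.DT

open Pool.Agent.MuZ Pool.Agent.FW NumberField IsDedekindDomain
open Pool.Agent.DI (io ofC io_inj exists_io io_ofC ofC_io VP MP UP TP ex)

/-- One step of the chain: from `a - a' ∈ M_P` to `A - A' = (a - a') m`, `m ∈ M_P`. -/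
private theorem R3_step (P : Ideal ZZ) [hP : P.IsPrime] (h3 : MP P 3) (a a' r r' A A' : Om)
    (ha : VP P a) (ha' : UP P a') (hr : UP P r) (hA : UP P A)
    (e : a * r = A + 6) (e' : a' * r' = A' + 6) (f : r ^ 3 = A ^ 2 + 3 * A + 9)
    (f' : r' ^ 3 = A' ^ 2 + 3 * A' + 9) (g : MP P (r - a ^ 2)) (g' : MP P (r' - a' ^ 2))
    (h : MP P (a - a')) :
    ∃ m : Om, MP P m ∧ A - A' = (a - a') * m := by
  have hD : MP P (r - r') := by
    have e1 : r - r' = (r - a ^ 2) - (r' - a' ^ 2) + (a - a') * (a + a') := by ring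
    rw [e1]
    exact DI.MP.add (DI.MP.sub g g') (DI.MP.mul_right h (DI.VP.add ha ha'.1))
  have hd : MP P (A - A') := by
    have e1 : A - A' = (a - a') * r + a' * (r - r') := by linear_combination e' - e
    rw [e1]
    exact DI.MP.add (DI.MP.mul_right h hr.1) (DI.MP.mul_left ha'.1 hD)
  have h2 : UP P (2 : Om) := by
    have h4 : UP P ((2 : Om) ^ 2) := by
      refine DI.UP.congr DI.UP.one ?_
      have e1 : (2 : Om) ^ 2 - 1 = 3 := by norm_num
      rw [e1]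
      exact h3
    exact DI.UP.of_pow (by norm_num) h4
  have hT : UP P (A + A' + 3) := by
    refine DI.UP.congr (DI.UP.mul h2 hA) ?_
    have e1 : A + A' + 3 - 2 * A = 3 - (A - A') := by ring
    rw [e1]
    exact DI.MP.sub h3 hd
  have hS : MP P (r ^ 2 + r * r' + r' ^ 2) := by
    have e1 : r ^ 2 + r * r' + r' ^ 2 = 3 * (r ^ 2 - r * (r - r')) + (r - r') * (r - r') := by ring
    rw [e1]
    exact DI.MP.add (DI.MP.mul_right h3 (DI.VP.sub (hr.pow 2).1 (DI.VP.mul hr.1 hD.vp)))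
      (DI.MP.mul_left hD.vp hD)
  have hST : MP P ((r ^ 2 + r * r' + r' ^ 2) * (A + A' + 3)⁻¹) := DI.MP.mul_right hS hT.inv.1
  have hU : UP P ((r ^ 2 + r * r' + r' ^ 2) * (A + A' + 3)⁻¹ - a') := by
    refine DI.UP.congr ha'.neg ?_
    have e1 : (r ^ 2 + r * r' + r' ^ 2) * (A + A' + 3)⁻¹ - a' - -a' =
        (r ^ 2 + r * r' + r' ^ 2) * (A + A' + 3)⁻¹ := by ring
    rw [e1]
    exact hST
  set W := (r ^ 2 + r * r' + r' ^ 2) * (A + A' + 3)⁻¹ with hW
  have k1 : A - A' = (r - r') * W := by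
    have e1 : (r - r') * (r ^ 2 + r * r' + r' ^ 2) = (A - A') * (A + A' + 3) := by
      linear_combination f - f'
    rw [hW, ← mul_assoc, e1, mul_assoc, mul_inv_cancel₀ hT.ne_zero, mul_one]
  have k2 : (a - a') * r = (r - r') * (W - a') := by
    have e1 : (a - a') * r = (A - A') - a' * (r - r') := by linear_combination e - e'
    rw [e1, k1]
    ring
  have k3 : r - r' = (a - a') * r * (W - a')⁻¹ := by
    rw [k2, mul_assoc, mul_inv_cancel₀ hU.ne_zero, mul_one]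
  refine ⟨r * (W - a')⁻¹ * W, DI.MP.mul_left (DI.VP.mul hr.1 hU.inv.1) hST, ?_⟩
  rw [k1]
  conv_lhs => rw [k3]
  ring

/-- **`S_R3`**: injectivity of `aO` modulo the primes above `𝔭`. -/
theorem sR3 (hO4 : S_O4) (hO5 : S_O5) (hB6 : S_B6) (hB7 : S_B7) (hR1 : S_R1) (hR2 : S_R2) :
    S_R3 := by
  intro k t _ b b' hb hb' P hP h0
  have hPp : P.IsPrime := hP.1.1
  have hPb : ¬ AbPb k t P := by
    intro h
    have h1 := DI.MP.add hP.2.2 h.2.2
    have e1 : wO k t + (1 - wO k t) = 1 := by ring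
    rw [e1] at h1
    exact DI.MP.one_not h1
  obtain ⟨-, -, -, -, -, -, -, -, hpp, -, -, -⟩ := hO4 k t
  obtain ⟨h, β, hh, hβ, hpow⟩ := hO5 k t (pp k t) hpp
  have hne : ∀ c : Ideal (OO k t), c ≠ ⊥ → pp k t * c ≠ ⊥ := fun c hc => mul_ne_zero hpp hc
  have key : ∀ c : Ideal (OO k t), c ≠ ⊥ → UP P (aO c) ∧ UP P (rhO (pp k t * c)) ∧
      UP P (aO (pp k t * c)) ∧ aO c * rhO (pp k t * c) = aO (pp k t * c) + 6 ∧
      rhO (pp k t * c) ^ 3 = aO (pp k t * c) ^ 2 + 3 * aO (pp k t * c) + 9 ∧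
      MP P (rhO (pp k t * c) - aO c ^ 2) := by
    intro c hc
    have hc' := hne c hc
    obtain ⟨-, -, -, -, c5⟩ := hR2 k t c hc P hP.1
    obtain ⟨-, -, -, d4, d5⟩ := hR2 k t (pp k t * c) hc' P hP.1
    obtain ⟨c6, -, y, hy, hy'⟩ := c5 hP
    refine ⟨c6, (d4 hPb).1, (d5 hP).1, ?_, (hR1 k t (pp k t * c) hc').2.2.2.1, ?_⟩
    · apply io_inj
      have h1 := (hB6 k t c hc).2.2.1
      simp only [map_mul, map_add, map_ofNat, (hR1 k t c hc).1, (hR1 k t (pp k t * c) hc').1,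
        (hR1 k t (pp k t * c) hc').2.1]
      exact h1
    · rw [hy']
      exact DI.MP.mul_right hP.2.1 hy
  have hj : ∀ (c : Ideal (OO k t)) (j : ℕ), c ≠ ⊥ → pp k t ^ j * c ≠ ⊥ := fun c j hc =>
    mul_ne_zero (pow_ne_zero j hpp) hc
  have main : ∀ j : ℕ, ∃ μ : Om, VP P μ ∧ (0 < j → MP P μ) ∧
      aO (pp k t ^ j * b) - aO (pp k t ^ j * b') = (aO b - aO b') * μ := by
    intro j
    induction j with
    | zero =>
      refine ⟨1, DI.VP.one, fun h1 => absurd h1 (lt_irrefl 0), ?_⟩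
      rw [pow_zero, one_mul, one_mul, mul_one]
    | succ j ih =>
      obtain ⟨μ, hμ, -, he⟩ := ih
      obtain ⟨k1, k2, k3, k4, k5, k6⟩ := key (pp k t ^ j * b) (hj b j hb)
      obtain ⟨l1, -, -, l4, l5, l6⟩ := key (pp k t ^ j * b') (hj b' j hb')
      have hm : MP P (aO (pp k t ^ j * b) - aO (pp k t ^ j * b')) := by
        rw [he]
        exact DI.MP.mul_right h0 hμ
      obtain ⟨m, hm1, hm2⟩ := R3_step P hP.2.1 _ _ _ _ _ _ k1.1 l1 k2 k3 k4 l4 k5 l5 k6 l6 hm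
      refine ⟨μ * m, (DI.MP.mul_left hμ hm1).vp, fun _ => DI.MP.mul_left hμ hm1, ?_⟩
      rw [pow_succ', mul_assoc, mul_assoc, hm2, he, mul_assoc]
  obtain ⟨μ, -, hμ, he⟩ := main h
  have hper : ∀ c : Ideal (OO k t), c ≠ ⊥ → aO (pp k t ^ h * c) = aO c := by
    intro c hc
    have h1 := ((hB7 k t c hc).1 β hβ).2.1
    unfold aO
    rw [hpow, h1]
  rw [hper b hb, hper b' hb'] at he
  have h1 : (aO b - aO b') * (1 - μ) = 0 := by
    rw [mul_sub, mul_one, ← he, sub_self]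
  rcases mul_eq_zero.1 h1 with h2 | h2
  · exact sub_eq_zero.1 h2
  · exfalso
    have h3 : (1 : Om) = μ := sub_eq_zero.1 h2
    have h4 := hμ hh
    rw [← h3] at h4
    exact DI.MP.one_not h4

end Pool.Agent.DT
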