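import Pool.Agent.Lib.DT.R.Spec
import Pool.Agent.Lib.DI.Val
import Pool.Agent.Lib.DI.B.A12

/-!
# Theorem DT, part R, module `R4`: complex conjugation on `Om`
-/

set_option autoImplicit false

open scoped Pointwise

noncomputable section

namespace Pool.Agent.DT

open Pool.Agent.MuZ Pool.Agent.FW NumberField IsDedekindDomain
open Pool.Agent.DI (io ofC io_inj exists_io io_ofC ofC_io VP MP UP TP ex)

variable {k t : ℕ}

private theorem R4_tor_conj {z : ℂ} (h : Tor k t z) : Tor k t ((starRingEnd ℂ) z) := by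
  obtain ⟨v, n, hn, rfl⟩ := h
  exact ⟨cjO v, n, hn, by rw [map_div₀, conj_toC, map_natCast]⟩

private theorem R4_w [SqT k t] {c : Gal(Om/ℚ)}
    (hc : ∀ x : Om, io (c x) = (starRingEnd ℂ) (io x)) : c (wO k t) = t - wO k t := by
  apply io_inj
  rw [hc, io_wO, conj_wC, map_sub, map_natCast, io_wO]

private theorem R4_npr {P : Ideal ZZ} (c : Gal(Om/ℚ)) (h : Npr P) : Npr (c • P) := by
  obtain ⟨h1, h2⟩ := h
  have := h1
  refine ⟨inferInstance, ?_⟩
  intro h3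
  apply h2
  have h4 : c⁻¹ • c • P = c⁻¹ • (⊥ : Ideal ZZ) := by rw [h3]
  rw [inv_smul_smul] at h4
  rw [h4]
  simp

private theorem R4_t (hs : SqT k t) : ∃ s : ℕ, t = 3 * s + 1 := by
  rcases hs.out with h | h
  · exact ⟨0, by omega⟩
  · exact ⟨1, by omega⟩

private theorem R4_tmp (hs : SqT k t) {P : Ideal ZZ} [P.IsPrime] (h : MP P 3) :
    MP P ((t : Om) - 1) := by
  obtain ⟨s, rfl⟩ := R4_t hs
  have h1 : (((3 * s + 1 : ℕ) : Om) - 1) = 3 * (s : Om) := by push_cast; ring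
  rw [h1]
  exact Pool.Agent.DI.MP.mul_right h (Pool.Agent.DI.VP.nat s)

private theorem R4_tor (hL2 : S_L2) (hL6a : S_L6a) [SqT k t] {b : Ideal (OO k t)} (hb : b ≠ ⊥) :
    Tor k t (ptT b) := by
  obtain ⟨⟨-, -, h3, -⟩, -⟩ := hL6a k t b hb
  obtain ⟨v, n, hn, h⟩ := (hL2 k t).2.2.2.2.2.2.1 b _ hb h3
  refine ⟨v, 3 * n, by omega, ?_⟩
  have hn' : (n : ℂ) ≠ 0 := by
    have : n ≠ 0 := by omega
    exact_mod_cast this
  rw [eq_div_iff hn'] at h
  have h3n : ((3 * n : ℕ) : ℂ) ≠ 0 := by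
    push_cast
    exact mul_ne_zero (by norm_num) hn'
  rw [eq_div_iff h3n]
  push_cast
  linear_combination h

theorem sR4 (hO3 : S_O3) (hL2 : S_L2) (hL6a : S_L6a) (hB7 : S_B7) (hR1 : S_R1) (hR4a : S_R4a) :
    S_R4 := by
  have hx : ∀ (k t : ℕ) [SqT k t] (b : Ideal (OO k t)), b ≠ ⊥ → ∀ z : ℂ, Tor k t z →
      io (xO b z) = XC b z := fun k t _ b hb z hz => io_ofC _ (hR4a k t b hb z hz)
  have hk : ∀ (k t : ℕ) [SqT k t] (b : Ideal (OO k t)), b ≠ ⊥ → io (kpO b) = kpC b := by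
    intro k t _ b hb
    apply io_ofC
    have hT : Tor k t (ptT b) := R4_tor hL2 hL6a hb
    obtain ⟨-, -, -, h3, -⟩ := hB7 k t b hb
    refine IsAlgebraic.of_pow (n := 3) (by norm_num) ?_
    have h4 : WC2 b (ptT b) =
        io (4 * xO b (ptT b) ^ 3 + (aO b * xO b (ptT b) + 1) ^ 2) := by
      unfold WC2
      rw [map_add, map_mul, map_pow, map_pow, map_add, map_mul, map_one, map_ofNat,
        hx k t b hb _ hT, (hR1 k t b hb).1]
    rw [h3, h4]
    exact (Algebra.IsAlgebraic.isAlgebraic (R := ℚ) (4 * xO b (ptT b) ^ 3 +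
      (aO b * xO b (ptT b) + 1) ^ 2)).algHom io.toRatAlgHom
  refine ⟨fun k t _ b hb => ⟨hk k t b hb, hx k t b hb⟩, ?_⟩
  obtain ⟨c, hc⟩ := Pool.Agent.DI.tA1
  refine ⟨c, hc, ?_⟩
  intro k t hs b hb
  have hcb : cjI b ≠ ⊥ := (hO3 k t).2.2.2.2.2.2.1 b hb
  refine ⟨?_, ?_, ?_⟩
  · intro z hz
    apply io_inj
    rw [map_mul, map_sub, hc, hx k t b hb z hz, hk k t (cjI b) hcb,
      hx k t (cjI b) hcb _ (R4_tor_conj hz), hx k t (cjI b) hcb _ (R4_tor hL2 hL6a hcb)]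
    exact ((hB7 k t b hb).2.1 z).2.2.2
  · rintro P ⟨h1, h3, h4⟩
    have hP : Npr (c • P) := R4_npr c h1
    have := hP.1
    have h5 := (Pool.Agent.DI.MP.smul (P := P) c (x := (3 : Om))).2 h3
    rw [map_ofNat] at h5
    refine ⟨hP, h5, ?_⟩
    have h6 := (Pool.Agent.DI.MP.smul (P := P) c (x := wO k t)).2 h4
    rw [R4_w hc] at h6
    have h7 := Pool.Agent.DI.MP.sub h6 (R4_tmp hs h5)
    have h8 : (t : Om) - wO k t - ((t : Om) - 1) = 1 - wO k t := by ring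
    rwa [h8] at h7
  · rintro P ⟨h1, h3, h4⟩
    have hP : Npr (c • P) := R4_npr c h1
    have := hP.1
    have h5 := (Pool.Agent.DI.MP.smul (P := P) c (x := (3 : Om))).2 h3
    rw [map_ofNat] at h5
    refine ⟨hP, h5, ?_⟩
    have h6 := (Pool.Agent.DI.MP.smul (P := P) c (x := 1 - wO k t)).2 h4
    rw [map_sub, map_one, R4_w hc] at h6
    have h7 := Pool.Agent.DI.MP.add h6 (R4_tmp hs h5)
    have h8 : (1 : Om) - ((t : Om) - wO k t) + ((t : Om) - 1) = wO k t := by ring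
    rwa [h8] at h7

end Pool.Agent.DT
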