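import Pool.Agent.Lib.DT.R.Spec
import Pool.Agent.Lib.DI.Val

/-!
# Theorem DT (`p = 3`), part R, module R5: the framing and `g` in `Om`
-/

set_option autoImplicit false

open scoped Pointwise

noncomputable section

namespace Pool.Agent.DT

open Pool.Agent.MuZ Pool.Agent.FW NumberField IsDedekindDomain
open Pool.Agent.DI (io ofC io_inj exists_io io_ofC ofC_io VP MP UP TP ex)

private theorem R5_io (x : Om) : IsAlgebraic ℚ (io x) := by
  have h : IsAlgebraic ℚ x := Algebra.IsAlgebraic.isAlgebraic x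
  exact h.algHom (IsAlgClosed.lift : Om →ₐ[ℚ] ℂ)

private theorem R5_sq {x y : ℂ} (h : x ^ 2 = y) (hy : IsAlgebraic ℚ y) : IsAlgebraic ℚ x :=
  IsAlgebraic.of_pow two_pos (h ▸ hy)

/-- `aO b ≠ 0`. -/
private theorem R5_aO (hO4 : S_O4) (hAbQ : S_AbQ) (hR2 : S_R2) {k t : ℕ} [SqT k t]
    {b : Ideal (OO k t)} (hb : b ≠ ⊥) : aO b ≠ 0 := by
  obtain ⟨-, -, -, hp, -, -, -, -, hne, -⟩ := hO4 k t
  obtain ⟨-, h2, -, -, h5, -⟩ := hAbQ k t
  obtain ⟨Q, hQ, hQp⟩ := h2 (pp k t) hp hne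
  have := hQ.1
  exact (((hR2 k t b hb Q hQ).2.2.2.2 ((h5 Q).1.2 ⟨hQ, hQp⟩)).1).ne_zero

/-- The framing: `fr b ≠ 0`, `AC b ≠ 0` and `℘'(S₀)² = r2³`. -/
private theorem R5_fr (hB1 : S_B1) (hB12 : S_B12) {k t : ℕ} [SqT k t]
    {b : Ideal (OO k t)} (hb : b ≠ ⊥) (hbp : PrI b (ppb k t)) (hA : AC b ≠ 0) :
    fr b ≠ 0 ∧ wdC b (S0 k t) ^ 2 = r2 b ^ 3 := by
  have hr := (hB1 k t b hb).2.2.1
  obtain ⟨-, -, h1, h2, -⟩ := hB12 k t b hb hbp
  refine ⟨?_, ?_⟩
  · intro h0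
    rw [h0, zero_pow two_ne_zero] at h2
    exact mul_ne_zero (pow_ne_zero 2 hA) hr h2.symm
  · have h3 : AC b ^ 2 * (wdC b (S0 k t) ^ 2 - r2 b ^ 3) = 0 := by
      linear_combination r2 b ^ 2 * h2 - (fr b * r2 b + AC b * wdC b (S0 k t)) * h1
    rcases mul_eq_zero.1 h3 with h4 | h4
    · exact absurd h4 (pow_ne_zero 2 hA)
    · exact sub_eq_zero.1 h4

/-- The framing and `g` in `Om`. -/
theorem sR5 (hO4 : S_O4) (hO6 : S_O6) (_ : S_L2) (hB1 : S_B1) (hB2 : S_B2) (hB11 : S_B11)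
    (hB12 : S_B12) (hB14 : S_B14) (hAbQ : S_AbQ) (hR1 : S_R1) (hR2 : S_R2) (hR4 : S_R4)
    (hR5a : S_R5a) : S_R5 := by
  intro k t _ m b b' hm hb hb' hm6 hbp hbp'
  have ha := R5_aO hO4 hAbQ hR2 hb
  have ha' := R5_aO hO4 hAbQ hR2 hb'
  have hA := (hR1 k t b hb).1
  have hA' := (hR1 k t b' hb').1
  have hA0 : AC b ≠ 0 := by
    rw [← hA]
    exact (map_ne_zero io).2 ha
  have hA0' : AC b' ≠ 0 := by
    rw [← hA']
    exact (map_ne_zero io).2 ha'
  obtain ⟨hf, hw⟩ := R5_fr hB1 hB12 hb hbp hA0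
  have hr := (hB1 k t b hb).2.2.1
  obtain ⟨-, hw0, hfr, hfr2, -⟩ := hB12 k t b hb hbp
  obtain ⟨-, -, -, hfr2', -⟩ := hB12 k t b' hb' hbp'
  -- the functions at the torsion points
  have hv2 : ∀ z : ℂ, Tor k t z → z ∉ Lam b → (wdC b z / wdC b (S0 k t)) ^ 2 =
      io (4 * xO b z ^ 3 + (aO b * xO b z + 1) ^ 2) := by
    intro z hz hzb
    simp only [map_mul, map_add, map_one, map_ofNat, map_pow]
    rw [(hR4.1 k t b hb).2 z hz, hA, div_pow, hw, (hB2 k t b hb z hzb).1,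
      mul_div_cancel_left₀ _ (pow_ne_zero 3 hr)]
    rfl
  have hv : ∀ z : ℂ, Tor k t z → io (vO b z) = wdC b z / wdC b (S0 k t) := by
    intro z hz
    apply io_ofC
    by_cases hzb : z ∈ Lam b
    · rw [((hB1 k t b hb).2.2.2.2.2.2.2.2.2.2.1 z hzb).2, zero_div]
      exact isAlgebraic_zero
    · exact R5_sq (hv2 z hz hzb) (R5_io _)
  refine ⟨hf, ha, ?_, ?_⟩
  · apply io_ofC
    have e : (fr b' / fr b) ^ 2 = io ((aO b' / aO b) ^ 2) * (r2 b' / r2 b) := by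
      rw [map_pow, map_div₀, hA, hA', div_pow, hfr2, hfr2']
      field_simp
    exact R5_sq e ((R5_io _).mul (hR5a k t b b' hb hb'))
  · intro z hz
    refine ⟨hv z hz, ?_, ?_⟩
    · intro hzb
      apply io_inj
      rw [map_pow, hv z hz, hv2 z hz hzb]
    · intro hzm
      have hzb : z ∉ Lam b := fun h => hzm (lam_mono h)
      have hmb : m * b ≠ ⊥ := mul_ne_zero hm hb
      obtain ⟨-, -, -, -, hcop, -⟩ := hO6 k t
      have hm2 : PrI m (sN k t 2) := by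
        rw [hcop 2 m]
        exact ((hcop 6 m).1 hm6).coprime_dvd_right (by norm_num)
      have hg : gC m b z = io (∑ u ∈ hs m b, vO b z * (aO b * (xO b z - xO b u))⁻¹) := by
        rw [hB11 k t m b hm hb hm2 hbp z hzm, map_sum]
        refine Finset.sum_congr rfl fun u hu => ?_
        have hut : Tor k t u := tor_lam hmb ((hB14 k t m b hm hb hm2).1.mem u hu).1
        rw [map_mul, map_inv₀, map_mul, map_sub, hv z hz, hA, (hR4.1 k t b hb).2 z hz,
          (hR4.1 k t b hb).2 u hut, hfr, ← div_eq_mul_inv, div_div]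
        congr 1
        ring
      have hg1 : io (gO m b z) = gC m b z := by
        apply io_ofC
        rw [hg]
        exact R5_io _
      exact ⟨hg1, io_inj (hg1.trans hg)⟩

end Pool.Agent.DT
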