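import Pool.Agent.Lib.DT.R.Spec

/-!
# Theorem DT, part R, module R5a: quotients of the numbers `r2` are algebraic
-/

set_option autoImplicit false

open scoped Pointwise

noncomputable section

namespace Pool.Agent.DT

open Pool.Agent.MuZ Pool.Agent.FW NumberField IsDedekindDomain
open Pool.Agent.DI (io ofC io_inj exists_io io_ofC ofC_io VP MP UP TP ex)

private theorem R5a_main (h3 : S_L3) (h6 : S_L6a) (hB1 : S_B1) (hB6 : S_B6) (hB9 : S_B9)
    (hR4a : S_R4a) (k t : ℕ) [SqT k t] (a b : Ideal (OO k t)) (ha : a ≠ ⊥) (hb : b ≠ ⊥) :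
    IsAlgebraic ℚ (r2 (a * b) / r2 b) := by
  have hab : a * b ≠ ⊥ := mul_ne_zero ha hb
  obtain ⟨-, -, R, hR, -⟩ := h3 k t a b ha hb
  obtain ⟨⟨-, hT, hT3, -⟩, ⟨-, hS, hS3, -⟩, -⟩ := h6 k t (a * b) hab
  have hTt : Tor k t (ptT (a * b)) := (tor_iff hab).2 ⟨3, by norm_num, by exact_mod_cast hT3⟩
  have hSt : Tor k t (ptS (a * b)) := (tor_iff hab).2 ⟨3, by norm_num, by exact_mod_cast hS3⟩
  obtain ⟨-, -, -, -, -, -, -, -, -, -, -, hXS, -⟩ := hB1 k t (a * b) hab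
  obtain ⟨-, -, hs, -⟩ := hB1 k t b hb
  obtain ⟨hrho, -, -, hXT, -⟩ := hB6 k t (a * b) hab
  have hX0 : XC (a * b) (ptT (a * b)) ≠ 0 := by
    rw [hXT]
    exact div_ne_zero (neg_ne_zero.2 hrho) (by norm_num)
  have h := (hB9 k t a b ha hb R hR).1 _ _ hS hT
  rw [hXS, zero_sub] at h
  have e : r2 (a * b) / r2 b =
      (∑ u ∈ R, (XC b (ptS (a * b) + u) - XC b (ptT (a * b) + u))) *
        (-XC (a * b) (ptT (a * b)))⁻¹ := by
    rw [div_eq_iff hs, mul_right_comm, ← div_eq_mul_inv, eq_div_iff (neg_ne_zero.2 hX0), h]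
    ring
  have hsum : IsAlgebraic ℚ (∑ u ∈ R, (XC b (ptS (a * b) + u) - XC b (ptT (a * b) + u))) := by
    refine Finset.sum_induction _ (fun x => IsAlgebraic ℚ x) (fun _ _ h1 h2 => h1.add h2)
      isAlgebraic_zero (fun u hu => ?_)
    have hu' : Tor k t u := tor_lam hab (hR.mem u hu)
    exact (hR4a k t b hb _ (tor_add hSt hu')).sub (hR4a k t b hb _ (tor_add hTt hu'))
  rw [e]
  exact hsum.mul (hR4a k t (a * b) hab _ hTt).neg.inv

/-- Quotients of the numbers `r2` are algebraic. -/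
theorem sR5a (_hL2 : S_L2) (hL3 : S_L3) (hL6a : S_L6a) (hB1 : S_B1) (hB6 : S_B6) (hB9 : S_B9)
    (hR4a : S_R4a) : S_R5a := by
  intro k t _ b b' hb hb'
  have h1 := R5a_main hL3 hL6a hB1 hB6 hB9 hR4a k t b' b hb' hb
  have h2 := R5a_main hL3 hL6a hB1 hB6 hB9 hR4a k t b b' hb hb'
  rw [mul_comm b' b] at h1
  have hs : r2 b ≠ 0 := (hB1 k t b hb).2.2.1
  have hs' : r2 b' ≠ 0 := (hB1 k t b' hb').2.2.1
  have hs'' : r2 (b * b') ≠ 0 := (hB1 k t (b * b') (mul_ne_zero hb hb')).2.2.1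
  have e : r2 b' / r2 b = (r2 (b * b') / r2 b) * (r2 (b * b') / r2 b')⁻¹ := by
    field_simp
  rw [e]
  exact h1.mul h2.inv

end Pool.Agent.DT
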