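import Pool.Agent.Lib.DT.R.Spec

/-!
# Theorem DT, part R, module RB: no poles on the cycle
-/

set_option autoImplicit false

open scoped Pointwise

noncomputable section

namespace Pool.Agent.DT

private lemma RB_int {F : Type} [Field F] (V : ValuationSubring F) (n : ℕ) :
    V.valuation (n : F) ≤ 1 :=
  (V.valuation_le_one_iff _).2 (natCast_mem V n)

private lemma RB_pole {F : Type} [Field F] (V : ValuationSubring F) (a b r : F)
    (h1 : r ^ 3 = a ^ 2 + 3 * a + 9) (h2 : b * r = a + 6) (ha : 1 < V.valuation a) :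
    1 < V.valuation b ∧ V.valuation b < V.valuation a := by
  have v3 : V.valuation (3 : F) ≤ 1 := by exact_mod_cast RB_int V 3
  have v6 : V.valuation (6 : F) ≤ 1 := by exact_mod_cast RB_int V 6
  have v9 : V.valuation (9 : F) ≤ 1 := by exact_mod_cast RB_int V 9
  have ha0 : V.valuation a ≠ 0 := fun h => by
    rw [h] at ha
    exact absurd ha (not_lt.mpr zero_le)
  have hlt : V.valuation a < V.valuation (a ^ 2) := by
    rw [map_pow]
    conv_lhs => rw [← pow_one (V.valuation a)]
    exact pow_lt_pow_right₀ ha (by norm_num)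
  have e1 : V.valuation (3 * a) < V.valuation (a ^ 2) := by
    refine lt_of_le_of_lt ?_ hlt
    rw [map_mul]
    exact mul_le_of_le_one_left' v3
  have e2 : V.valuation (9 : F) < V.valuation (a ^ 2) := lt_of_le_of_lt v9 (ha.trans hlt)
  have e3 : V.valuation (3 * a + 9) < V.valuation (a ^ 2) := Valuation.map_add_lt _ e1 e2
  have e4 : V.valuation (r ^ 3) = V.valuation (a ^ 2) := by
    have h3 : r ^ 3 = (3 * a + 9) + a ^ 2 := by rw [h1]; ring
    rw [h3]
    exact Valuation.map_add_eq_of_lt_right V.valuation e3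
  have e5 : V.valuation (b * r) = V.valuation a := by
    have h3 : b * r = 6 + a := by rw [h2]; ring
    rw [h3]
    exact Valuation.map_add_eq_of_lt_right V.valuation (lt_of_le_of_lt v6 ha)
  have e6 : V.valuation b ^ 3 = V.valuation a := by
    have h3 : V.valuation b ^ 3 * V.valuation a ^ 2 = V.valuation a * V.valuation a ^ 2 := by
      rw [map_pow, map_pow] at e4
      rw [← e4, ← mul_pow, ← map_mul, e5, e4]
      exact pow_succ' _ 2
    exact mul_right_cancel₀ (pow_ne_zero 2 ha0) h3
  have e7 : 1 < V.valuation b := by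
    by_contra hb
    push Not at hb
    have h5 : V.valuation b ^ 3 ≤ 1 := pow_le_one' hb 3
    rw [e6] at h5
    exact absurd ha (not_lt.mpr h5)
  refine ⟨e7, ?_⟩
  rw [← e6]
  conv_lhs => rw [← pow_one (V.valuation b)]
  exact pow_lt_pow_right₀ e7 (by norm_num)

theorem sRB : S_RB := by
  intro F _ V h a r hh hper hr ha i
  have h1 : V.valuation (a i) ≤ 1 := by
    by_contra hcon
    push Not at hcon
    have h2 : ∀ n : ℕ, 1 < V.valuation (a (i + n)) ∧
        (0 < n → V.valuation (a (i + n)) < V.valuation (a i)) := by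
      intro n
      induction n with
      | zero => exact ⟨hcon, fun h => absurd h (lt_irrefl 0)⟩
      | succ n ih =>
        obtain ⟨h3, h4⟩ := RB_pole V (a (i + n)) (a (i + n + 1)) (r (i + n)) (hr _) (ha _) ih.1
        refine ⟨h3, fun _ => ?_⟩
        rcases Nat.eq_zero_or_pos n with h5 | h5
        · rw [h5] at h4
          rw [h5]
          exact h4
        · exact h4.trans (ih.2 h5)
    have h3 := (h2 h).2 hh
    rw [hper] at h3
    exact absurd h3 (lt_irrefl _)
  refine ⟨h1, ?_⟩
  have v3 : V.valuation (3 : F) ≤ 1 := by exact_mod_cast RB_int V 3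
  have v9 : V.valuation (9 : F) ≤ 1 := by exact_mod_cast RB_int V 9
  have h2 : V.valuation (r i) ^ 3 ≤ 1 := by
    rw [← map_pow, hr]
    refine Valuation.map_add_le _ (Valuation.map_add_le _ ?_ ?_) v9
    · rw [map_pow]
      exact pow_le_one' h1 2
    · rw [map_mul]
      exact mul_le_one' v3 h1
  by_contra hcon
  push Not at hcon
  exact absurd h2 (not_le.mpr (one_lt_pow₀ hcon (by norm_num)))

end Pool.Agent.DT
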