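import Pool.Agent.Lib.DT.R.Spec

/-!
# Theorem DT (p = 3), part R, module RC: units on the cycle
-/

set_option autoImplicit false

open scoped Pointwise

noncomputable section

namespace Pool.Agent.DT

theorem sRC (hRB : S_RB) : S_RC := by
  intro F _ V h al a r d hh hper hne hr3 har hdr hd3 hprod hal
  have hle := hRB F V h a r hh (fun i => (hper i).1) hr3 har
  have hP : Function.Periodic r h := fun i => (hper i).2.1
  -- the product of the valuations
  have hp2 : (∏ i ∈ Finset.range h, V.valuation (r i)) ^ 2 = 1 := by
    have := congrArg V.valuation hprod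
    rw [map_pow, map_pow, hal, one_pow, map_prod] at this
    exact this
  have hp1 : ∏ i ∈ Finset.range h, V.valuation (r i) = 1 :=
    (pow_eq_one_iff.mp hp2).resolve_right (by norm_num)
  have h1' : ∀ i ∈ Finset.range h, V.valuation (r i) = 1 :=
    (Finset.prod_eq_one_iff_of_le_one' (fun i _ => (hle i).2)).mp hp1
  have h1 : ∀ i, V.valuation (r i) = 1 := by
    intro i
    rw [← hP.map_mod_nat i]
    exact h1' _ (Finset.mem_range.mpr (Nat.mod_lt _ hh))
  have h2 : ∀ i, V.valuation (d i) ^ 3 = V.valuation (a i - 3) := by
    intro i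
    have e : d i ^ 3 = (a i - 3) * r i ^ 3 := by
      rw [hd3, hr3]
      ring
    have := congrArg V.valuation e
    rw [map_mul, map_pow, map_pow, h1, one_pow, mul_one] at this
    exact this
  have hu : ∀ i, V.valuation (d (i + 1)) = V.valuation (d i) ^ 3 := by
    intro i
    have := congrArg V.valuation (hdr i)
    rw [map_mul, h1, mul_one] at this
    rw [this, h2]
  have hun : ∀ i n, V.valuation (d (i + n)) = V.valuation (d i) ^ 3 ^ n := by
    intro i n
    induction n with
    | zero => rw [add_zero, pow_zero, pow_one]
    | succ n ih => rw [← add_assoc, hu, ih, ← pow_mul, pow_succ]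
  have h3 : ∀ i, V.valuation (d i) = 1 := by
    intro i
    have e1 := hun i h
    rw [(hper i).2.2] at e1
    have hne' : V.valuation (d i) ≠ 0 := by
      rw [Ne, map_eq_zero]
      exact hne i
    have hge : 1 + h ≤ 3 ^ h := by
      have := Nat.lt_pow_self (n := h) (show 1 < 3 by norm_num)
      omega
    have e2 : 3 ^ h = (3 ^ h - 1) + 1 := by omega
    rw [e2, pow_succ] at e1
    have e3 : V.valuation (d i) ^ (3 ^ h - 1) = 1 := by
      refine mul_right_cancel₀ hne' ?_
      rw [one_mul]
      exact e1.symm
    refine (pow_eq_one_iff.mp e3).resolve_right ?_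
    omega
  exact fun i => ⟨h1 i, h3 i⟩

end Pool.Agent.DT
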