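import Pool.Agent.Lib.DT.R.Spec
import Pool.Agent.Lib.DK.R.RA

/-!
# Theorem DT (`p = 3`), module R4a: `X` is algebraic at torsion points
-/

set_option autoImplicit false

open scoped Pointwise

noncomputable section

namespace Pool.Agent.DT

open Pool.Agent.MuZ Pool.Agent.FW NumberField IsDedekindDomain
open Pool.Agent.DI (io ofC io_inj exists_io io_ofC ofC_io VP MP UP TP ex)

/-- `io x` is algebraic. -/
private theorem R4a_io (x : Om) : IsAlgebraic ℚ (io x) := by
  have h : IsAlgebraic ℚ x := Algebra.IsAlgebraic.isAlgebraic x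
  exact h.algHom (IsAlgClosed.lift : Om →ₐ[ℚ] ℂ)

private theorem R4a_rat (q : ℚ) : IsAlgebraic ℚ ((q : ℚ) : ℂ) := isAlgebraic_algebraMap (A := ℂ) q

section

variable {V : ValuationSubring ℂ}

private theorem R4a_add {a b : ℂ} (ha : V.valuation a < 1) (hb : V.valuation b < 1) :
    V.valuation (a + b) < 1 :=
  lt_of_le_of_lt (V.valuation.map_add a b) (max_lt ha hb)

private theorem R4a_neg {a : ℂ} (ha : V.valuation a < 1) : V.valuation (-a) < 1 := by
  rwa [Valuation.map_neg]

private theorem R4a_sub {a b : ℂ} (ha : V.valuation a < 1) (hb : V.valuation b < 1) :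
    V.valuation (a - b) < 1 := by
  rw [sub_eq_add_neg]
  exact R4a_add ha (R4a_neg hb)

private theorem R4a_mul {a b : ℂ} (ha : V.valuation a < 1) (hb : V.valuation b ≤ 1) :
    V.valuation (a * b) < 1 := by
  rw [map_mul]
  calc V.valuation a * V.valuation b ≤ V.valuation a * 1 := mul_le_mul_right hb _
    _ < 1 := by rwa [mul_one]

private theorem R4a_one {a : ℂ} (ha : V.valuation (a - 1) < 1) : V.valuation a = 1 := by
  have h := V.valuation.map_one_add_of_lt ha
  rwa [add_sub_cancel] at h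

private theorem R4a_ne {X : ℂ} (hX : 1 < V.valuation X) : X ≠ 0 := by
  rintro rfl
  rw [map_zero] at hX
  exact not_lt_of_ge zero_le_one hX

private theorem R4a_inv {X : ℂ} (hX : 1 < V.valuation X) : V.valuation (1 / X) < 1 := by
  rw [map_div₀, map_one, one_div]
  exact (inv_lt_one₀ (lt_trans zero_lt_one hX)).2 hX

/-- `4 + (A + 1/X)² / X` is near to `4`. -/
private theorem R4a_den {X A : ℂ} (hA : V.valuation A ≤ 1) (hX : 1 < V.valuation X) :
    V.valuation (4 + (A + 1 / X) ^ 2 * (1 / X) - 4) < 1 := by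
  have hi := R4a_inv hX
  have h1 : V.valuation (A + 1 / X) ≤ 1 :=
    le_trans (V.valuation.map_add _ _) (max_le hA hi.le)
  rw [add_sub_cancel_left, mul_comm]
  refine R4a_mul hi ?_
  rw [map_pow]
  exact pow_le_one' h1 2

/-- `4 + (A + 1/X)² / X` is a unit. -/
private theorem R4a_den1 {X A : ℂ} (h4 : V.valuation 4 = 1) (hA : V.valuation A ≤ 1)
    (hX : 1 < V.valuation X) : V.valuation (4 + (A + 1 / X) ^ 2 * (1 / X)) = 1 := by
  have h1 : V.valuation (4 + (A + 1 / X) ^ 2 * (1 / X) - 4) < V.valuation 4 := by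
    rw [h4]
    exact R4a_den hA hX
  have h2 := V.valuation.map_add_eq_of_lt_left h1
  rw [add_sub_cancel, h4] at h2
  exact h2

/-- `4 X³ + (A X + 1)² ≠ 0`. -/
private theorem R4a_W {X A : ℂ} (h4 : V.valuation 4 = 1) (hA : V.valuation A ≤ 1)
    (hX : 1 < V.valuation X) : 4 * X ^ 3 + (A * X + 1) ^ 2 ≠ 0 := by
  have hX0 := R4a_ne hX
  intro h
  have e : 4 * X ^ 3 + (A * X + 1) ^ 2 = X ^ 3 * (4 + (A + 1 / X) ^ 2 * (1 / X)) := by
    field_simp
  rw [e, mul_eq_zero] at h
  rcases h with h | h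
  · exact pow_ne_zero 3 hX0 h
  · have h1 := R4a_den1 h4 hA hX
    rw [h, map_zero] at h1
    exact zero_ne_one h1

/-- The duplication step. -/
private theorem R4a_dup {X X' A : ℂ} (h4 : V.valuation 4 = 1) (hA : V.valuation A ≤ 1)
    (hX : 1 < V.valuation X)
    (h : X' * (4 * X ^ 3 + (A * X + 1) ^ 2) = X ^ 4 - A * X ^ 2 - 2 * X) :
    V.valuation (4 * X' / X - 1) < 1 := by
  have hX0 := R4a_ne hX
  have hi := R4a_inv hX
  have hP4 := R4a_den hA hX
  have hvP := R4a_den1 h4 hA hX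
  set P : ℂ := 4 + (A + 1 / X) ^ 2 * (1 / X) with hP
  have h2 : V.valuation 2 ≤ 1 := by
    have e2 : (2 : ℂ) = 1 + 1 := by norm_num
    rw [e2]
    exact le_trans (V.valuation.map_add _ _) (by rw [map_one, max_self])
  set B : ℂ := 1 - 1 / X * (1 / X * A) - 1 / X * (1 / X * (1 / X * 2)) with hB
  have hB1 : V.valuation (B - 1) < 1 := by
    have e : B - 1 = -(1 / X * (1 / X * A)) - 1 / X * (1 / X * (1 / X * 2)) := by rw [hB]; ring
    rw [e]
    exact R4a_sub (R4a_neg (R4a_mul hi (R4a_mul hi hA).le))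
      (R4a_mul hi (R4a_mul hi (R4a_mul hi h2).le).le)
  have hP0 : P ≠ 0 := by
    intro h0
    rw [h0, map_zero] at hvP
    exact zero_ne_one hvP
  have hrel : X' / X * P = B := by
    rw [hP, hB]
    field_simp
    linear_combination h
  have e : 4 * X' / X - 1 = (4 * (B - 1) - (P - 4)) * P⁻¹ := by
    rw [← hrel]
    field_simp
    ring
  rw [e]
  refine R4a_mul (R4a_sub ?_ hP4) (by rw [map_inv₀, hvP, inv_one])
  rw [mul_comm]
  exact R4a_mul hB1 h4.le

end

theorem sR4a (hL2 : S_L2) (hL3 : S_L3) (hB1 : S_B1) (hB2 : S_B2) (hB3 : S_B3) (hR1 : S_R1) :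
    S_R4a := by
  intro k t _ b hb z htor
  obtain ⟨per, -, hr2, -, -, -, -, -, hwd, -, hlat, -, -, -⟩ := hB1 k t b hb
  have algA : IsAlgebraic ℚ (AC b) := by
    rw [← (hR1 k t b hb).1]
    exact R4a_io _
  by_contra hx
  have hz : z ∉ Lam b := by
    intro hz
    apply hx
    rw [(hlat z hz).1]
    have h1 : IsAlgebraic ℚ (((1 / 12 : ℚ)) : ℂ) := R4a_rat _
    have e : -(AC b ^ 2) / 12 = -(AC b ^ 2) * (((1 / 12 : ℚ)) : ℂ) := by
      push_cast
      ring
    rw [e]
    exact ((algA.pow 2).neg).mul h1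
  obtain ⟨V, hV, hxV⟩ := DK.sRA _ hx
  have alg1 : ∀ y : ℂ, IsAlgebraic ℚ y → V.valuation y ≤ 1 := fun y hy =>
    (V.valuation_le_one_iff y).2 (hV y hy)
  have alg2 : ∀ y : ℂ, IsAlgebraic ℚ y → y ≠ 0 → V.valuation y = 1 := by
    intro y hy hy0
    refine le_antisymm (alg1 y hy) ?_
    have h1 := alg1 y⁻¹ hy.inv
    have h2 : V.valuation y * V.valuation y⁻¹ = 1 := by rw [← map_mul, mul_inv_cancel₀ hy0, map_one]
    calc (1 : _) = V.valuation y * V.valuation y⁻¹ := h2.symm
      _ ≤ V.valuation y * 1 := mul_le_mul_right h1 _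
      _ = V.valuation y := mul_one _
  set x : ℂ := XC b z with hxd
  have hvx : 1 < V.valuation x := by
    rw [← not_le, V.valuation_le_one_iff]
    exact hxV
  have hx0 : x ≠ 0 := R4a_ne hvx
  have h4 : V.valuation 4 = 1 := by
    have h := R4a_rat 4
    have e : (((4 : ℚ)) : ℂ) = 4 := by norm_num
    rw [e] at h
    exact alg2 4 h (by norm_num)
  have vA := alg1 _ algA
  -- the claim
  have key : ∀ j : ℕ, (2 : ℂ) ^ j * z ∉ Lam b ∧
      V.valuation (4 ^ j * XC b (2 ^ j * z) / x - 1) < 1 := by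
    intro j
    induction j with
    | zero =>
      rw [pow_zero, one_mul, pow_zero, one_mul, ← hxd, div_self hx0, sub_self, map_zero]
      exact ⟨hz, zero_lt_one⟩
    | succ j ih =>
      obtain ⟨ih1, ih2⟩ := ih
      set y : ℂ := 2 ^ j * z with hy
      have hvX : V.valuation (XC b y) = V.valuation x := by
        have h1 := R4a_one ih2
        rw [map_div₀, map_mul, map_pow, h4, one_pow, one_mul] at h1
        have hvx0 : V.valuation x ≠ 0 := (V.valuation.ne_zero_iff).2 hx0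
        rwa [div_eq_one_iff_eq hvx0] at h1
      have hvX1 : 1 < V.valuation (XC b y) := by rw [hvX]; exact hvx
      have h2y : 2 * y ∉ Lam b := by
        intro h2y
        have h1 := (hB2 k t b hb y ih1).1
        rw [(hwd y ih1).2 h2y, zero_pow two_ne_zero] at h1
        rcases mul_eq_zero.1 h1.symm with h2 | h2
        · exact pow_ne_zero 3 hr2 h2
        · exact R4a_W h4 vA hvX1 h2
      have hpow : (2 : ℂ) ^ (j + 1) * z = 2 * y := by rw [hy, pow_succ]; ring
      rw [hpow]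
      refine ⟨h2y, ?_⟩
      have hdup := R4a_dup h4 vA hvX1 ((hB3 k t b hb).2 y h2y)
      have hX0 : XC b y ≠ 0 := R4a_ne hvX1
      have e : 4 ^ (j + 1) * XC b (2 * y) / x - 1 =
          (4 * XC b (2 * y) / XC b y - 1) * (4 ^ j * XC b y / x) +
            (4 ^ j * XC b y / x - 1) := by
        rw [pow_succ]
        field_simp
        ring
      rw [e]
      exact R4a_add (R4a_mul hdup (R4a_one ih2).le) ih2
  -- the pigeonhole principle
  obtain ⟨N, hN, hNz⟩ := (tor_iff hb).1 htor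
  have hspN : sN k t N ≠ ⊥ := by
    intro h
    have h1 : (N : OO k t) = 0 := by
      have h2 : (N : OO k t) ∈ sN k t N := Ideal.mem_span_singleton_self _
      rw [h] at h2
      exact h2
    have h3 : toC (N : OO k t) = 0 := by rw [h1, toC_zero]
    rw [toC_nat] at h3
    exact hN.ne' (by exact_mod_cast h3)
  obtain ⟨-, -, R, hR, -⟩ := hL3 k t (sN k t N) b hspN hb
  obtain ⟨-, -, -, -, hsN, -, -, -, -⟩ := hL2 k t
  have hmem : ∀ j : ℕ, ∃ u : R, (2 : ℂ) ^ j * z - (u : ℂ) ∈ Lam b := by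
    intro j
    have h1 : (2 : ℂ) ^ j * z ∈ Lam (sN k t N * b) := by
      rw [hsN N b]
      have e : (N : ℂ) * (2 ^ j * z) = ((2 ^ j : ℕ) : ℂ) * (N * z) := by
        push_cast
        ring
      rw [e]
      exact lam_nat _ hNz
    obtain ⟨u, hu, h2⟩ := hR.ex _ h1
    exact ⟨⟨u, hu⟩, h2⟩
  choose u hu using hmem
  obtain ⟨i, j, hij, huij⟩ := Finite.exists_ne_map_eq_of_infinite u
  have fin : ∀ i j : ℕ, i < j → u i = u j → False := by
    intro i j hij huij
    obtain ⟨m, rfl⟩ := Nat.exists_eq_add_of_lt hij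
    have hd : (2 : ℂ) ^ (i + m + 1) * z - 2 ^ i * z ∈ Lam b := by
      have h1 := lam_sub (hu (i + m + 1)) (hu i)
      rw [huij] at h1
      have e : (2 : ℂ) ^ (i + m + 1) * z - (u (i + m + 1) : ℂ) -
          ((2 : ℂ) ^ i * z - (u (i + m + 1) : ℂ)) = (2 : ℂ) ^ (i + m + 1) * z - 2 ^ i * z := by ring
      rwa [e] at h1
    have hX : XC b ((2 : ℂ) ^ (i + m + 1) * z) = XC b (2 ^ i * z) := by
      have h := (per (2 ^ i * z) _ hd).2.2
      rwa [add_sub_cancel] at h
    have k1 := (key i).2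
    have k2 := (key (i + m + 1)).2
    rw [hX] at k2
    have hq : V.valuation (((((4 : ℚ) ^ (m + 1) - 1 : ℚ))) : ℂ) = 1 := by
      refine alg2 _ (R4a_rat _) ?_
      have h5 : (1 : ℚ) < 4 ^ (m + 1) := one_lt_pow₀ (by norm_num) (by omega)
      exact_mod_cast (sub_pos.2 h5).ne'
    have e : (((((4 : ℚ) ^ (m + 1) - 1 : ℚ))) : ℂ) =
        (4 ^ (i + m + 1) * XC b (2 ^ i * z) / x - 1) -
          (4 ^ i * XC b (2 ^ i * z) / x - 1) * 4 ^ (m + 1) := by
      push_cast
      rw [show i + m + 1 = i + (m + 1) by ring, pow_add]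
      ring
    rw [e] at hq
    have hlt := R4a_sub k2 (R4a_mul k1 (b := 4 ^ (m + 1)) (by rw [map_pow, h4, one_pow]))
    rw [hq] at hlt
    exact lt_irrefl _ hlt
  rcases lt_or_gt_of_ne hij with h | h
  · exact fin i j h huij
  · exact fin j i h huij.symm

end Pool.Agent.DT
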