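import Pool.Agent.Lib.DT.IfaceX
import Pool.Agent.Lib.DK.R.Spec

/-!
# Theorem DT (`p = 3`), part R (the numbers `Al`, `ρ`, `δ`): statements of the modules with proofs (helper46)

Every statement `S_..` is proved in the file `DT/R/<name>.lean` as `theorem s<name> (hypotheses) : S_<name>`:
hypotheses exactly the statements named after (from ..), in that order. Read `DT/Defs.lean`, `DT/Iface.lean`,
`DT/IfaceO.lean`, `DT/Base.lean` first; facts on `VP`, `MP`, `UP`: `DI/Val.lean` (namespace `Pool.Agent.DI`: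
`VP.add`, `VP.mul`, `VP.not_iff`, `VP.or_inv`, `MP.mul_left`, `MP.mul_cases`, `MP.of_pow`, `UP.iff`, `UP.mul`,
`UP.inv`, `UP.prod`, `UP.of_pow`, `UP.congr`, `UP.ne_zero`, `VP.smul`, ...; `Npr Q` gives the instance
`Q.IsPrime`). Almost every module is the PORT of the module of the same name in `Pool/Agent/Lib/DK/R/`
(read it: the same Lean lines work with the new formulas). Parts 0 and L: `DT/O/*` (`S_O2` - `S_O9`,
`S_L1` - `S_L6`; used as hypotheses here).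

THE CYCLE. `a i = AC (ppb ^ i b)`, `r i = rhC (ppb ^ i b)`, `d i = dlC (ppb ^ i b)`, `ppb ^ h = (α)`:
`r i ^ 3 = a i ^ 2 + 3 a i + 9`, `a (i + 1) r i = a i + 6`, `d (i + 1) r i = a i - 3`, `d i ^ 3 = a i ^ 3 - 27`,
all are periodic modulo `h`, `(∏ r i) ^ 2 = α ^ 2`.
-/

set_option autoImplicit false

open scoped Pointwise nonZeroDivisors

noncomputable section

namespace Pool.Agent.DT

open Pool.Agent.MuZ Pool.Agent.FW NumberField IsDedekindDomain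
open Pool.Agent.DI (io ofC io_inj exists_io io_ofC ofC_io VP MP UP TP ex)

/-! ## Valuations -/

/-- MODULE `AbQ` (130 lines; from `S_O4`; PORT of `DK/R/AbQ`). THE PRIME IDEAL OF `O` BELOW `Q`. PROOF.
`q = {v | MP Q (toO v)}` is a prime ideal, `≠ ⊥`; `Abv Q a ↔ a ≤ q` is the definition. `pp k t` is generated by
`3`, `wI k t` (`toO_wI`), `ppb k t` by `3`, `1 - wI k t`; `pp * ppb = sN 3` (`S_O4`), `1 = w + (1 - w)`. -/
abbrev M_AbQ : Prop := S_AbQ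

/-- MODULE `RB` (90 lines; PORT of `DK/R/RB`). NO POLES ON THE CYCLE. PROOF. `v = V.valuation`; `v n ≤ 1` for integers `n`.
Suppose `v (a i) > 1`. Then `v (a i ^ 2 + 3 a i + 9) = v (a i) ^ 2` (`v (3 a i) ≤ v (a i) < v (a i) ^ 2`) and `v (a i + 6) = v (a i)`
(`Valuation.map_add_eq_of_lt_left` and similar), so `v (r i) ^ 3 = v (a i) ^ 2`, `v (a (i + 1)) * v (r i) = v (a i)`; cubes:
`v (a (i + 1)) ^ 3 * v (a i) ^ 2 = v (a i) ^ 3`, so `v (a (i + 1)) ^ 3 = v (a i) > 1`, hence `v (a (i + 1)) > 1` and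
`v (a (i + 1)) < v (a (i + 1)) ^ 3 = v (a i)`. By induction `v (a (i + n)) < v (a i)` for all `n ≥ 1`; `n = h` is a contradiction to
`a (i + h) = a i`. So `v (a i) ≤ 1`, and `v (r i) ^ 3 ≤ 1`, so `v (r i) ≤ 1`. -/
def S_RB : Prop :=
  ∀ (F : Type) [Field F] (V : ValuationSubring F) (h : ℕ) (a r : ℕ → F), 0 < h →
    (∀ i, a (i + h) = a i) → (∀ i, r i ^ 3 = a i ^ 2 + 3 * a i + 9) →
    (∀ i, a (i + 1) * r i = a i + 6) → ∀ i, V.valuation (a i) ≤ 1 ∧ V.valuation (r i) ≤ 1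

/-- MODULE `RC` (90 lines; from `S_RB`; compare `DK/R/RC`). UNITS. PROOF. `v (r i) ≤ 1` (`S_RB`) and the product over `i < h` of the
`v (r i)` has square `1` (`v al = 1`), so it is `1` and `v (r i) = 1` for `i < h` (`Finset` induction or
`Finset.prod_le_one`-type lemma), hence for all `i` (periodicity). `d i ^ 3 = a i ^ 3 - 27 = (a i - 3) r i ^ 3` gives
`v (d i) ^ 3 = v (a i - 3)`, and `d (i + 1) r i = a i - 3` gives `v (d (i + 1)) = v (a i - 3) = v (d i) ^ 3`. So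
`v (d i) = v (d (i + h)) = v (d i) ^ (3 ^ h)`, `v (d i) ≠ 0`, hence `v (d i) ^ (3 ^ h - 1) = 1`, `v (d i) = 1`. -/
def S_RC : Prop :=
  ∀ (F : Type) [Field F] (V : ValuationSubring F) (h : ℕ) (al : F) (a r d : ℕ → F), 0 < h →
    (∀ i, a (i + h) = a i ∧ r (i + h) = r i ∧ d (i + h) = d i) → (∀ i, d i ≠ 0) →
    (∀ i, r i ^ 3 = a i ^ 2 + 3 * a i + 9) → (∀ i, a (i + 1) * r i = a i + 6) →
    (∀ i, d (i + 1) * r i = a i - 3) → (∀ i, d i ^ 3 = a i ^ 3 - 27) →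
    (∏ i ∈ Finset.range h, r i) ^ 2 = al ^ 2 → V.valuation al = 1 →
    ∀ i, V.valuation (r i) = 1 ∧ V.valuation (d i) = 1

/-! ## The cycle -/

/-- MODULE `R0` (130 lines; from `S_O4`, `S_O5`, `S_B1`, `S_B5`, `S_B6`, `S_B7`; PORT of `DK/R/R0`). THE CYCLE. PROOF. `S_O5` for
`ppb k t`: `h`, `al`. Periodicity: `ppb ^ (i + h) * b = sp al * (ppb ^ i * b)` and `S_B7`. The relations: `S_B5` for `ppb ^ i * b`,
`dlC ^ 3 = AC ^ 3 - 27` from `S_B6`; `dlC ≠ 0`: `AC ^ 3 - 27 ≠ 0` (`S_B1`). `r2 (ppb * c) = rhC c ^ 2 * r2 c`, so by induction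
`r2 (ppb ^ h * b) = (∏ rhC) ^ 2 * r2 b`, and it is `toC al ^ 2 * r2 b` (`S_B7`); `r2 b ≠ 0`. -/
def S_R0 : Prop :=
  ∀ (k t : ℕ) [SqT k t], ∃ (h : ℕ) (al : OO k t), 0 < h ∧ al ≠ 0 ∧ ppb k t ^ h = sp al ∧
    ∀ b : Ideal (OO k t), b ≠ ⊥ →
      (∀ i : ℕ, AC (ppb k t ^ (i + h) * b) = AC (ppb k t ^ i * b) ∧
        rhC (ppb k t ^ (i + h) * b) = rhC (ppb k t ^ i * b) ∧
        dlC (ppb k t ^ (i + h) * b) = dlC (ppb k t ^ i * b)) ∧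
      (∀ i : ℕ, rhC (ppb k t ^ i * b) ≠ 0 ∧ dlC (ppb k t ^ i * b) ≠ 0 ∧
        rhC (ppb k t ^ i * b) ^ 3 = AC (ppb k t ^ i * b) ^ 2 + 3 * AC (ppb k t ^ i * b) + 9 ∧
        AC (ppb k t ^ (i + 1) * b) * rhC (ppb k t ^ i * b) = AC (ppb k t ^ i * b) + 6 ∧
        dlC (ppb k t ^ (i + 1) * b) * rhC (ppb k t ^ i * b) = AC (ppb k t ^ i * b) - 3 ∧
        dlC (ppb k t ^ i * b) ^ 3 = AC (ppb k t ^ i * b) ^ 3 - 27) ∧
      (∏ i ∈ Finset.range h, rhC (ppb k t ^ i * b)) ^ 2 = toC al ^ 2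

/-- MODULE `R1` (70 lines; from `S_RB`, `S_R0`; PORT of `DK/R/R1`): `S_R1`. PROOF. `DK.sRA : DK.S_RA` (file `DK/R/RA.lean`): if
`AC b` is not algebraic there is `V` with `AC b ∉ V` and all algebraic numbers in `V`: a contradiction to `S_RB` (`i = 0`). So
`AC b` is algebraic for every `b`; `rhC b` and `dlC b` are, because their cubes are (`IsAlgebraic.of_pow`). `io_ofC`. The relations
in `Om`: apply the injective map `io` (`i = 0` in `S_R0`; `ppb ^ 0 * b = b`). -/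
abbrev M_R1 : Prop := S_R1

/-- MODULE `R0O` (70 lines; from `S_R0`, `S_R1`; PORT of `DK/R/R0O`). THE CYCLE IN `Om`. PROOF. Apply `io` (injective; `S_R1`,
`io_toO`) to `S_R0`. -/
def S_R0O : Prop :=
  ∀ (k t : ℕ) [SqT k t], ∃ (h : ℕ) (al : OO k t), 0 < h ∧ al ≠ 0 ∧ ppb k t ^ h = sp al ∧
    ∀ b : Ideal (OO k t), b ≠ ⊥ →
      (∀ i : ℕ, aO (ppb k t ^ (i + h) * b) = aO (ppb k t ^ i * b) ∧
        rhO (ppb k t ^ (i + h) * b) = rhO (ppb k t ^ i * b) ∧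
        dlO (ppb k t ^ (i + h) * b) = dlO (ppb k t ^ i * b)) ∧
      (∀ i : ℕ, rhO (ppb k t ^ i * b) ≠ 0 ∧ dlO (ppb k t ^ i * b) ≠ 0 ∧
        rhO (ppb k t ^ i * b) ^ 3 = aO (ppb k t ^ i * b) ^ 2 + 3 * aO (ppb k t ^ i * b) + 9 ∧
        aO (ppb k t ^ (i + 1) * b) * rhO (ppb k t ^ i * b) = aO (ppb k t ^ i * b) + 6 ∧
        dlO (ppb k t ^ (i + 1) * b) * rhO (ppb k t ^ i * b) = aO (ppb k t ^ i * b) - 3 ∧
        dlO (ppb k t ^ i * b) ^ 3 = aO (ppb k t ^ i * b) ^ 3 - 27) ∧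
      (∏ i ∈ Finset.range h, rhO (ppb k t ^ i * b)) ^ 2 = toO al ^ 2

/-- MODULE `R2` (150 lines; from `S_O4`, `S_RB`, `S_RC`, `S_R0O`, `S_R1`, `S_B6`, `S_B7`; PORT of `DK/R/R2a`): `S_R2`. PROOF. `V` from
`DK.sRV : DK.S_RV` (file `DK/R/RV.lean`). (1) `VP` of `aO b`, `rhO b`: `S_RB`, `i = 0`; `dlO b ^ 3 = aO b ^ 3 - 27`: `VP.of_pow`.
(2) `¬ AbPb k t Q`: `toO al` is a unit: it is in `V` (`toO_VP`); if `MP Q (toO al)` then, as `(1 - w) ^ h` and `3 ^ h` are in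
`ppb ^ h = sp al`, `MP Q ((1 - wO) ^ h)`, `MP Q (3 ^ h)`, so `MP Q (1 - wO)`, `MP Q 3` (`MP.of_pow`), i.e. `AbPb k t Q`. `S_RC`, `i = 0`.
(3) `AbP k t Q`: so `¬ AbPb k t Q` (`1 = w + (1 - w)`). `a = aO b` is a unit: if `MP Q a` then `rhO b ^ 3 = a ^ 2 + 3 a + 9 ∈ m`
(`MP Q 3`), but `rhO b` is a unit. Let `a' = aO (pp b)`, `ρ = rhO (pp b)` (a unit, (2) for `pp b`): `a ρ = a' + 6` and
`ρ ^ 3 = a' ^ 2 + 3 a' + 9` (`S_B6` and `io`). So modulo `3 V`: `a' = a ρ - 6`, `ρ ^ 3 - a ^ 2 ρ ^ 2 = 3 (..)`, divide by the unit `ρ ^ 2`: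
`ρ - a ^ 2 ∈ 3 V`, and `a' - a ^ 3 = a (ρ - a ^ 2) - 6 ∈ 3 V`. (`TP Q 3 x` : `x = 3 y` with `VP Q y`.) -/
abbrev M_R2 : Prop := S_R2

/-- MODULE `R3` (130 lines; from `S_O4`, `S_O5`, `S_B6`, `S_B7`, `S_R1`, `S_R2`; PORT of `DK/R/R3`): `S_R3`. PROOF. `pp ^ h = sp β`,
`h > 0` (`S_O5`); `b j = pp ^ j * b`, `b' j = pp ^ j * b'`, `a j = aO (b j)`, `a' j = aO (b' j)`, `δ j = a j - a' j`; `ρ = rhO (b (j + 1))`,
`ρ' = rhO (b' (j + 1))`, units. `S_B6` in `Om`: `a j ρ = a (j+1) + 6`, `ρ ^ 3 = a (j+1) ^ 2 + 3 a (j+1) + 9`, the same for `b'`. Suppose `δ j ∈ m`.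
`S_R2`: `ρ - (a j) ^ 2`, `ρ' - (a' j) ^ 2 ∈ m`, so `ρ - ρ' ∈ m`. With `A = a (j+1)`, `A' = a' (j+1)`: `(ρ - ρ') (ρ ^ 2 + ρ ρ' + ρ' ^ 2) = δ (j+1) (A + A' + 3)`
and `A + A' + 3 = 2 A - δ (j+1) + 3`, `δ (j+1) = a j ρ - a' j ρ' = δ j ρ + a' j (ρ - ρ') ∈ m`, so `A + A' + 3` is a unit (`A` is a unit, `3 ∈ m`, `2` is a unit as
`2 * 2 = 1 + 3`), `=: U⁻¹`. `S := ρ ^ 2 + ρ ρ' + ρ' ^ 2 ∈ m` (it is `3 ρ ^ 2` modulo `ρ - ρ'`). `δ j ρ = δ (j+1) - a' j (ρ - ρ') = (ρ - ρ') (S U - a' j)`, and `S U - a' j` is a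
unit, so `ρ - ρ' = δ j * (element of V)` and `δ (j+1) = (ρ - ρ') S U = δ j * m j` with `m j ∈ m`. By induction `δ j = δ 0 * μ j` with `μ j ∈ m` for
`j ≥ 1` (and `δ j ∈ m` for all `j`). `δ h = δ 0` (`aO (sp β * b) = aO b`: `S_B7`), so `δ 0 (1 - μ h) = 0`, and `1 - μ h ≠ 0` (`MP.one_not`). -/
abbrev M_R3 : Prop := S_R3

/-! ## Algebraicity of `X` and complex conjugation -/

/-- MODULE `R4a` (150 lines; from `S_L2`, `S_L3`, `S_B1`, `S_B2`, `S_B3`, `S_R1`; PORT of `DK/R/R4a`). `X` IS ALGEBRAIC AT TORSION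
POINTS. PROOF. `z ∈ Lam b`: `S_B1`. Let `z ∉ Lam b`, `N z ∈ Lam b`, `x = XC b z`, and suppose `x` is not algebraic: `V`
from `DK.sRA`, `v = V.valuation`, `v x > 1`, `v y ≤ 1` for all algebraic `y`, hence `v y = 1` for all algebraic `y ≠ 0`.
CLAIM: for all `j`: `2 ^ j z ∉ Lam b` and `v (4 ^ j X_j / x - 1) < 1`, `X_j = XC b (2 ^ j z)` (so `v X_j = v x > 1`).
`j = 0`: clear. Let `y = 2 ^ j z`. `2 y ∉ Lam b`: otherwise `wdC b y = 0` (`S_B1`), so `WC2 b y = 0` (`S_B2`, `r2 ≠ 0`):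
`4 X_j ^ 3 + (A X_j + 1) ^ 2 = 0` and `X_j` would be algebraic (or directly: `v` of the left side is `v (4 X_j ^ 3) > 1`), a contradiction. `S_B3`:
`X_(j+1) (4 X_j ^ 3 + (A X_j + 1) ^ 2) = X_j ^ 4 - A X_j ^ 2 - 2 X_j`; divide by `X_j ^ 4`:
`(X_(j+1)/X_j) (4 + A ^ 2/X_j + 2 A/X_j ^ 2 + 1/X_j ^ 3) = 1 - A/X_j ^ 2 - 2/X_j ^ 3`, so `v (4 X_(j+1)/X_j - 1) < 1`; multiply.
PIGEONHOLE: the points `2 ^ j z` are in `Lam (sN k t N * b)` (`S_L2`), which has finitely many classes modulo `Lam b` (`S_L3`), so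
`2 ^ i z - 2 ^ (i + m) z ∈ Lam b` with `m ≥ 1`, and `X_(i+m) = X_i`; from the claim for `i`, `i + m`:
`v (4 ^ m - 1) < 1`, but `4 ^ m - 1` is a nonzero rational number. -/
def S_R4a : Prop :=
  ∀ (k t : ℕ) [SqT k t] (b : Ideal (OO k t)), b ≠ ⊥ → ∀ z : ℂ, Tor k t z → IsAlgebraic ℚ (XC b z)

/-- MODULE `R4` (90 lines; from `S_O3`, `S_L2`, `S_L6a`, `S_B7`, `S_R1`, `S_R4a`; PORT of `DK/R/R4`): `S_R4`. PROOF. First claim:
`kpC b ^ 3 = WC2 b (ptT b)` (`S_B7`) is algebraic (`ptT b` is a torsion point: `3 * ptT b ∈ Lam b`, `S_L6a`, `S_L2`), so `kpC b` is; `io_ofC`.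
`c`: the theorem `Pool.Agent.DI.tA1 : S_A1` (`DI/B/A12.lean`; `∃ c, ∀ x, io (c x) = conj (io x)`). The formula: apply `io` and `S_B7`
(`conj z` is a torsion point: `conj_toC`; `cjI b ≠ ⊥`: `S_O3`). `c (wO k t) = t - wO k t` (`io_wO`, `conj_wC`), and `3 ∣ t - 1` (`SqT.out`), so
`MP P (wO)`, `MP P 3` give `MP (c • P) (1 - wO)` (`1 - w = (t - w) - (t - 1)`; `DI.MP.smul`), and conversely; `Npr (c • P)` as in `DK/R/R4`. -/
abbrev M_R4 : Prop := S_R4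

/-! ## The framing in `Om` -/

/-- MODULE `R5a` (100 lines; from `S_L2`, `S_L3`, `S_L6a`, `S_B1`, `S_B6`, `S_B9`, `S_R4a`; PORT of `DK/R/R5a`). QUOTIENTS OF THE
NUMBERS `r2` ARE ALGEBRAIC. PROOF. First `b' = a b`: `S_B9` with `z = ptS (a b)`, `z' = ptT (a b)` (not in `Lam (a b)`, torsion
points) and a system `R` (`S_L3`): `XC (a b) z = 0` (`S_B1`), `XC (a b) z' = - rhC (pp (a b))/3 ≠ 0` (`S_B6`), so
`r2 (a b) (- XC (a b) z') = r2 b ∑ (XC b (z + u) - XC b (z' + u))`, and `XC (a b) z'` and the sum are algebraic (`S_R4a`; `z + u` are torsion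
points). General: `r2 b' / r2 b = (r2 (b * b')/r2 b) / (r2 (b * b')/r2 b')`, `r2 ≠ 0`. -/
def S_R5a : Prop :=
  ∀ (k t : ℕ) [SqT k t] (b b' : Ideal (OO k t)), b ≠ ⊥ → b' ≠ ⊥ → IsAlgebraic ℚ (r2 b' / r2 b)

/-- MODULE `R5` (130 lines; from `S_O4`, `S_O6`, `S_L2`, `S_B1`, `S_B2`, `S_B11`, `S_B12`, `S_B14`, `S_AbQ`, `S_R1`, `S_R2`, `S_R4`, `S_R5a`;
compare `DK/R/R5`): `S_R5`. PROOF. `aO b ≠ 0`: there is a prime `P` above `pp k t` (`S_AbQ` (2), `S_O4`) and `aO b` is a unit at `P` (`S_R2`).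
So `AC b ≠ 0`, `fr b ^ 2 = AC b ^ 2 * r2 b ≠ 0` (`S_B12`, `S_B1`). `(fr b'/fr b) ^ 2 = (AC b'/AC b) ^ 2 (r2 b'/r2 b)` is algebraic (`S_R5a`), so
`fr b'/fr b` is (`IsAlgebraic.of_pow`). `wdC b (S0) ^ 2 = r2 b ^ 3` (from the two formulas of `S_B12`), so by `S_B2`
`(wdC b z/wdC b (S0)) ^ 2 = WC2 b z` for `z ∉ Lam b`, which is algebraic (`S_R4`, `S_R1`); `wdC b z = 0` for `z ∈ Lam b` (`S_B1`). This gives `io (vO b z) = ..`
and the formula for `vO ^ 2` (apply `io`). `PrI m (sN k t 6)` gives `PrI m (sN k t 2)` (`S_O6`). `S_B11` with `fr b * r2 b = AC b * wdC b (S0)`: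
`gC m b z = ∑ u ∈ hs m b, (wdC b z/wdC b (S0)) / (AC b * (XC b z - XC b u))`: algebraic (the `u ∈ hs m b` are torsion points: `S_B14`, `S_L2`), and the last claim
(apply `io`). -/
abbrev M_R5 : Prop := S_R5

end Pool.Agent.DT
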